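import Pool.Agent.H60.LQ.Two
import Pool.Agent.H53.LQ.ITR
import Pool.Agent.H70.LQ.FIN

/-!
# LQ, row FIN3: the final theorem with the second level
-/

set_option autoImplicit false

namespace Pool.LQ

open Finset Real
open Pool.Agent.H49.Ent Pool.Agent.H32.Dense Pool.Agent.H24.KTH

namespace Fin22

lemma gap_of_aksg {d : ℕ} {a Λ : ℝ} (h : AKSG d a Λ) : GapG d a Λ 0 := by
  intro ε hε
  obtain ⟨B₀, B₁, hB₁, hG⟩ := h ε hε
  refine ⟨B₀, B₁, hB₁, ?_⟩
  intro J Ω _ ζ p Z v u τ hf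
  have := hG J Ω ζ p Z v u τ hf
  linarith

lemma alpha_low {α : ℝ} (h1 : 1 < α) (hα : α ^ 3 = 4 * α - 2) : 1.67513 ≤ α := by
  obtain ⟨hα1, hα2⟩ := Pool.Agent.H53.Dns.alpha_bounds h1 hα
  by_contra hlt
  push Not at hlt
  have e : 1.67513 ^ 3 - 4 * 1.67513 + 2 =
      (1.67513 - α) * (1.67513 ^ 2 + 1.67513 * α + α ^ 2 - 4) := by
    linear_combination hα
  have : 0 ≤ (1.67513 - α) * (1.67513 ^ 2 + 1.67513 * α + α ^ 2 - 4) :=
    mul_nonneg (by linarith) (by nlinarith)
  rw [← e] at this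
  norm_num at this

end Fin22

open Fin22 in
theorem fin3 (hPUR : PUR3Stmt) (hLPG : LPGStmt) (hLPA : LPAStmt) (hLVO : LVO3Stmt)
    (hHCB : HCBStmt) (hDCS : DCSStmt) : FIN3Stmt := by
  intro d hd α h1 hα q hq
  have hd7 : (7 : ℝ) ≤ d := by exact_mod_cast hd
  have hd0 : (0 : ℝ) < d := by linarith
  have hd1 : 1 ≤ d := by omega
  obtain ⟨hα1, hα2⟩ := Pool.Agent.H53.Dns.alpha_bounds h1 hα
  have hαl := alpha_low h1 hα
  have hcc0 : 0 < cc d := by unfold cc; positivity
  have hcc1 : cc d ≤ 1 := by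
    unfold cc
    have : 0.05 / (d : ℝ) ≤ 0.05 / 7 := by gcongr
    linarith
  have hdc : 0 < (d : ℝ) + cc d := by linarith
  have hq2 : 1 + α / (d + cc d) < q := by
    have e : (d : ℝ) + cc d = d + 0.279 + 0.05 / d := by unfold cc; ring
    rw [e]
    exact hq
  -- the exponent
  have hx : α < min 1.6752 ((q - 1) * (d + cc d)) := by
    refine lt_min hα2 ?_
    rw [← div_lt_iff₀ hdc]
    linarith
  obtain ⟨a, ha, hax, ha2, hG⟩ := hPUR d hd α h1 hα _ hx
  have hax1 : a < 1.6752 := lt_of_lt_of_le hax (min_le_left _ _)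
  have hax2 : a < (q - 1) * (d + cc d) := lt_of_lt_of_le hax (min_le_right _ _)
  have ha1 : 1 ≤ a := by linarith
  have hk : 0 ≤ kp a := (Fin70.kp_pos ha1 ha2).le
  have hroot : 0 ≤ a ^ 3 - 4 * a + 2 := by
    have e : a ^ 3 - 4 * a + 2 = (a - α) * (a ^ 2 + a * α + α ^ 2 - 4) := by
      linear_combination hα
    rw [e]
    exact mul_nonneg (by linarith) (by nlinarith)
  have hP := hLPG d a (a + d) (kp a) ha1 (by linarith) hk hG
  have hA := hLPA d a (a + d) (kp a) ha1 (by linarith) hk hP (1 / 100) (by norm_num)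
  have hmax : max (a + d) ((1 + 1 / 100) * (a + d + kp a)) = 1.01 * (a + d + kp a) := by
    rw [max_eq_right (by linarith)]
    norm_num
  rw [hmax] at hA
  have hL := hLVO d a hd (by linarith) hax1.le hroot hA
  have hgap := gap_of_aksg hL
  have ha' : 1 ≤ a * d / (d + cc d) := by
    rw [one_le_div hdc]
    nlinarith
  have hds := hHCB d _ _ 0 hd1 le_rfl (by simpa using ha') (by linarith) hgap
  have e1 : a * d / (d + cc d) * d / ((d : ℝ) + 0) = a * d / (d + cc d) := by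
    rw [add_zero, mul_div_assoc, div_self hd0.ne', mul_one]
  have e2 : (a * d / (d + cc d) + d) * d / ((d : ℝ) + 0) = a * d / (d + cc d) + d := by
    rw [add_zero, mul_div_assoc, div_self hd0.ne', mul_one]
  rw [e1, e2] at hds
  have hcount := hDCS d _ _ ha' le_rfl hds
  refine Pool.Agent.H53.Kak.lossless_of_restricted hd1 ha'
    (Pool.Agent.H53.Dns.restricted_of_count ha' hcount) ?_
  have h4 : a * d / (d + cc d) / d = a / (d + cc d) := by
    field_simp
  rw [h4]
  have h5 : a / (d + cc d) < q - 1 := by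
    rw [div_lt_iff₀ hdc]
    exact hax2
  linarith

end Pool.LQ
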