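import Pool.Agent.H60.LQ.Stmts
import Pool.Agent.H32.Dense.Zero

/-!
# LQ, row LZR: level zero
-/

set_option autoImplicit false

namespace Pool.LQ

open Finset Real
open Pool.Agent.H49.Ent Pool.Agent.H32.Dense Pool.Agent.H24.KTH

theorem lzr (hS : SBPStmt) : LZRStmt := by
  intro d ε hε
  refine ⟨2 * d, d, Nat.cast_nonneg d, ?_⟩
  intro J Ω _ ζ p Z v u τ h
  have h0 := level0G d (2 ^ J) Ω ζ p Z v u τ h
  obtain ⟨-, h1, h2⟩ := hS d J Ω ζ p Z v u τ h
  have h3 : 0 ≤ ε * (J * Real.log 2) := by positivity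
  have e : (fun ω => (v ω, Z ω)) = bv Z v := rfl
  rw [e] at h0
  unfold Sb
  linarith

end Pool.LQ
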