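import Pool.Agent.H60.LQ.Two
import Pool.Agent.H53.LQ.ITR

/-!
# LQ, row PUR3: the gain for exponents near the root
-/

set_option autoImplicit false

namespace Pool.LQ

open Finset Real
open Pool.Agent.H49.Ent Pool.Agent.H32.Dense Pool.Agent.H24.KTH

theorem pur3 (hITR : ITRStmt) (hSTP : STPStmt) (hSBP : SBPStmt) : PUR3Stmt := by
  intro d hd α h1 hα x hx
  obtain ⟨a, ha1, hax, ha2, hA, hlp⟩ := hITR d hd α h1 hα x hx
  refine ⟨a, ha1, hax, ha2, ?_⟩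
  obtain ⟨hα1, hα2⟩ := Pool.Agent.H53.Dns.alpha_bounds h1 hα
  have hd7 : (7 : ℝ) ≤ d := by exact_mod_cast hd
  have hD : 0 < a ^ 2 + 3 * a - 2 := by nlinarith
  have hroot : 0 ≤ a ^ 3 - 4 * a + 2 := by
    have e : a ^ 3 - 4 * a + 2 = (a - α) * (a ^ 2 + a * α + α ^ 2 - 4) := by
      have : α ^ 3 - 4 * α + 2 = 0 := by rw [hα]; ring
      linear_combination this
    rw [e]
    exact mul_nonneg (by linarith) (by nlinarith)
  have hnx : nx a ≤ a := by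
    unfold nx
    rw [div_le_iff₀ hD]
    nlinarith
  have hgap := hSTP d a (1.01 * (a + d)) (by omega) (by linarith) ha2 (by linarith) hA
  intro ε hε
  obtain ⟨B₀, B₁, hB₁, hG⟩ := hgap ε hε
  refine ⟨B₀, B₁, hB₁, ?_⟩
  intro J Ω _ ζ p Z v u τ h
  have hK := Kf_nonneg h
  obtain ⟨-, hS1, -⟩ := hSBP d J Ω ζ p Z v u τ h
  have hSf : 0 ≤ Sf (2 ^ J) p Z v u τ := by
    unfold Sf
    exact CH_nonneg h.hp _ _
  have hSb : 0 ≤ Sb (2 ^ J) p Z v u τ - J * Real.log 2 + Kf (2 ^ J) p (bv Z v) τ := by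
    unfold Sb
    linarith
  have hm := mul_nonneg (sub_nonneg.mpr hnx) hSb
  have hk2 : lp a (1.01 * (a + d)) * Kf (2 ^ J) p (bv Z v) τ ≤
      (nx a + d) * Kf (2 ^ J) p (bv Z v) τ := mul_le_mul_of_nonneg_right hlp hK
  have := hG J Ω ζ p Z v u τ h
  linarith

end Pool.LQ
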